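import Pool.Agent.U79.GZ.Stm
import Pool.Agent.U115.GE.Loc
import Pool.Agent.Y971.SG.Lq

/-!
Project GZ, package EX2: the curve `y² = x³ + 5 x² + 5 x`.

Both Selmer groups are `{1, 5}`: for the first one `-1` and `-5` are excluded modulo `8`, for the second one
negative numbers are excluded at the real place.  A split prime `q` is `±1` modulo `5`; `v(q) = -1` if
`q = 3` modulo `4` and `v(q) = 1` otherwise, so `q v(q)` is `1` modulo `4` and a square in `ℚ₅`.
-/

set_option autoImplicit false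

open scoped Classical

namespace Pool.Agent.U810.GZ.EX2

open Finset
open Pool.Agent.U115.GE
open Pool.Agent.U115.TP (LSol)
open Pool.Agent.Y971.SG.Lq (padic_sq padic_sq2)
open Pool.Agent.U79.GY (Cfg Hc Sp Mod)
open Pool.Agent.U79.GZ (ZZ Gn vv LS Dat S_EX2)

lemma two_dvd_of {w : ℤ_[2]} {a : ZMod 8}
    (h : PadicInt.toZModPow 3 w = 2 * (a : ZMod (2 ^ 3))) : ((2 : ℕ) : ℤ_[2]) ∣ w := by
  obtain ⟨n, hn⟩ := ZMod.intCast_surjective (n := 2 ^ 3) a
  have h1 : PadicInt.toZModPow 3 (w - 2 * (n : ℤ_[2])) = 0 := by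
    rw [map_sub, h, map_mul, map_ofNat, map_intCast, hn, sub_self]
  have h2 : w - 2 * (n : ℤ_[2]) ∈ RingHom.ker (PadicInt.toZModPow (p := 2) 3) := h1
  rw [PadicInt.ker_toZModPow, Ideal.mem_span_singleton] at h2
  have h3 : ((2 : ℕ) : ℤ_[2]) ∣ w - 2 * (n : ℤ_[2]) :=
    (dvd_pow_self _ (by norm_num)).trans h2
  have h4 : ((2 : ℕ) : ℤ_[2]) ∣ 2 * (n : ℤ_[2]) := ⟨n, by push_cast; ring⟩
  have h5 := dvd_add h3 h4
  rwa [sub_add_cancel] at h5

lemma no_sol (d : ℤ) (hd : d = -1 ∨ d = -5) : ¬ LSol 5 5 d 2 := by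
  rintro ⟨w, e, N, hwe, h⟩
  have h1 := congrArg (PadicInt.toZModPow 3) h
  simp only [map_mul, map_add, map_pow, map_intCast] at h1
  have key : ∀ x y z : ZMod 8, ((d : ℤ) : ZMod 8) * z ^ 2 = ((d : ℤ) : ZMod 8) ^ 2 * x ^ 4 +
      ((5 : ℤ) : ZMod 8) * ((d : ℤ) : ZMod 8) * x ^ 2 * y ^ 2 + ((5 : ℤ) : ZMod 8) * y ^ 4 →
      (∃ a : ZMod 8, x = 2 * a) ∧ ∃ b : ZMod 8, y = 2 * b := by
    rcases hd with rfl | rfl <;> decide
  obtain ⟨⟨a, ha⟩, b, hb⟩ := key _ _ _ h1
  exact hwe ⟨two_dvd_of ha, two_dvd_of hb⟩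

lemma int_dvd5 {d : ℤ} (hd : Squarefree d) (h : ∀ q : ℕ, q.Prime → (q : ℤ) ∣ d → (q : ℤ) ∣ 5) :
    d = 1 ∨ d = -1 ∨ d = 5 ∨ d = -5 := by
  have h1 : d.natAbs ∣ 5 := by
    have h2 : Squarefree d.natAbs := Int.squarefree_natAbs.2 hd
    rw [← Nat.prod_primeFactors_of_squarefree h2]
    have h3 : d.natAbs.primeFactors ⊆ {5} := by
      intro q hq
      have hqp := Nat.prime_of_mem_primeFactors hq
      have hqd := Nat.dvd_of_mem_primeFactors hq
      have h4 := h q hqp (Int.natCast_dvd.2 hqd)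
      have h5 : q ∣ 5 := by exact_mod_cast h4
      rw [Finset.mem_singleton]
      exact (Nat.prime_dvd_prime_iff_eq hqp (by norm_num)).1 h5
    calc ∏ p ∈ d.natAbs.primeFactors, p ∣ ∏ p ∈ ({5} : Finset ℕ), p :=
          Finset.prod_dvd_prod_of_subset _ _ _ h3
      _ = 5 := by simp
  have h2 := (Nat.dvd_prime (by norm_num : Nat.Prime 5)).1 h1
  omega

lemma sq5 : Squarefree (5 : ℤ) := by
  have h5 : Prime (5 : ℤ) := by norm_num
  exact h5.squarefree

lemma sel_one : SelSet 5 5 = {1, 5} := by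
  ext d
  constructor
  · rintro ⟨hd, hr, hp⟩
    have h1 := int_dvd5 hd (fun q hq h => by
      haveI : Fact q.Prime := ⟨hq⟩
      exact (lsol_of_qs hd (hp q)).dvdB hd h)
    have h2 := lsol_of_qs hd (hp 2)
    rcases h1 with h | h | h | h
    · left; exact h
    · exact absurd h2 (no_sol d (Or.inl h))
    · right; exact h
    · exact absurd h2 (no_sol d (Or.inr h))
  · rintro (rfl | rfl)
    · exact ⟨squarefree_one, qs_sq ⟨1, by norm_num⟩, fun p _ => qs_sq ⟨1, by norm_num⟩⟩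
    · exact ⟨sq5, qs_sqb (by norm_num) ⟨5, by norm_num⟩, fun p _ =>
        qs_sqb (by norm_num) ⟨5, by norm_num⟩⟩

lemma sel_two : SelSet (-10) 5 = {1, 5} := by
  ext d
  constructor
  · rintro ⟨hd, hr, hp⟩
    have h1 := int_dvd5 hd (fun q hq h => by
      haveI : Fact q.Prime := ⟨hq⟩
      exact (lsol_of_qs hd (hp q)).dvdB hd h)
    have hpos : 0 < d := by
      obtain ⟨N, M, e, hne, h⟩ := hr
      by_contra hneg
      have hd1 : d < 0 := lt_of_le_of_ne (not_lt.1 hneg) hd.ne_zero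
      have hd0 : (d : ℝ) < 0 := by exact_mod_cast hd1
      push_cast at h
      have h2 : 5 / (d : ℝ) < 0 := div_neg_of_pos_of_neg (by norm_num) hd0
      have h3 : 0 ≤ M ^ 2 * e ^ 2 := by positivity
      have h4 : 0 ≤ N ^ 2 := sq_nonneg N
      rcases hne with hM | he
      · have h5 : 0 < M ^ 4 := by positivity
        have h6 : 0 ≤ e ^ 4 := by positivity
        nlinarith [mul_neg_of_neg_of_pos hd0 h5, mul_nonpos_of_nonpos_of_nonneg h2.le h6]
      · have h5 : 0 ≤ M ^ 4 := by positivity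
        have h6 : 0 < e ^ 4 := by positivity
        nlinarith [mul_nonpos_of_nonpos_of_nonneg hd0.le h5, mul_neg_of_neg_of_pos h2 h6]
    rcases h1 with h | h | h | h
    · left; exact h
    · omega
    · right; exact h
    · omega
  · rintro (rfl | rfl)
    · exact ⟨squarefree_one, qs_sq ⟨1, by norm_num⟩, fun p _ => qs_sq ⟨1, by norm_num⟩⟩
    · exact ⟨sq5, qs_sqb (by norm_num) ⟨5, by norm_num⟩, fun p _ =>
        qs_sqb (by norm_num) ⟨5, by norm_num⟩⟩

lemma pf10 : (10 : ℕ).primeFactors = {2, 5} := by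
  rw [show (10 : ℕ) = 2 * 5 by norm_num, Nat.primeFactors_mul (by norm_num) (by norm_num),
    Nat.Prime.primeFactors (by norm_num), Nat.Prime.primeFactors (by norm_num)]
  rfl

lemma Gn10 : Gn 10 = {-1, 2, 5} := by
  unfold Gn
  rw [pf10]
  ext x
  simp

lemma one_mem (u : ℤ) (hu : u = 1 ∨ u = -1) : u ∈ ZZ 10 := by
  unfold ZZ
  rw [Finset.mem_image]
  refine ⟨(u, ∅), ?_, by simp⟩
  rw [Finset.mem_product]
  refine ⟨?_, Finset.empty_mem_powerset _⟩
  rcases hu with rfl | rfl <;> simp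

lemma vv_eq (q : ℕ) (hq : q.Prime) (h2 : q ≠ 2) : vv 10 (fun g => if g = -1 then -1 else 1) q =
    if q % 4 = 3 then -1 else 1 := by
  haveI : Fact q.Prime := ⟨hq⟩
  unfold vv
  rw [Gn10, Finset.prod_insert (by decide), Finset.prod_insert (by decide), Finset.prod_singleton]
  have e1 : IsSquare (1 : ZMod q) := ⟨1, by ring⟩
  norm_num
  have h3 := ZMod.exists_sq_eq_neg_one_iff (p := q)
  by_cases h : q % 4 = 3
  · rw [if_pos h, if_neg]
    rw [h3]
    exact fun h' => h' h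
  · rw [if_neg h, if_pos]
    exact h3.2 h

instance fact5 : Fact (Nat.Prime 5) := ⟨by norm_num⟩

/-- the square of an integer which is `±1` modulo `5` -/
lemma sq_five {D : ℤ} (h : D % 5 = 1 ∨ D % 5 = 4) : IsSquare (D : ℚ_[5]) := by
  refine padic_sq (p := 5) (by norm_num) (by omega) ?_
  have h1 : (D : ZMod 5) = ((D % 5 : ℤ) : ZMod 5) := by
    rw [ZMod.intCast_eq_intCast_iff_dvd_sub]
    omega
  rw [h1]
  rcases h with h | h <;> rw [h]
  · exact ⟨1, by norm_num⟩
  · exact ⟨2, by norm_num⟩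

lemma five_mod (q : ℕ) (h : Sp (Pool.Agent.U79.GY.cfg 5 5 10) q) :
    q.Prime ∧ q ≠ 2 ∧ (q % 5 = 1 ∨ q % 5 = 4) := by
  obtain ⟨hq, hc⟩ := h
  unfold Hc Pool.Agent.U79.GY.cfg at hc
  simp only [Finset.mem_filter, Finset.mem_range] at hc
  obtain ⟨h1, h2, h3, -⟩ := hc
  have hq2 : q ≠ 2 := by
    rintro rfl
    norm_num at h2
  have h4 : q % 40 % 2 = 1 := by
    have := hq.eq_two_or_odd.resolve_left hq2
    omega
  norm_num at h3
  refine ⟨hq, hq2, ?_⟩
  have h5 : q % 40 < 40 := Nat.mod_lt _ (by norm_num)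
  have h6 : q % 5 = q % 40 % 5 := by omega
  rw [h6]
  generalize q % 40 = r at h3 h4 h5
  clear h6 h1 h2
  revert h3
  interval_cases r <;> first | omega | (intro h3; revert h3; norm_num)

lemma hLS (q : ℕ) (h : Sp (Pool.Agent.U79.GY.cfg 5 5 10) q) :
    LS 5 5 10 (q * vv 10 (fun g => if g = -1 then -1 else 1) q) := by
  obtain ⟨hq, hq2, h5⟩ := five_mod q h
  have hodd : q % 2 = 1 := hq.eq_two_or_odd.resolve_left hq2
  rw [vv_eq q hq hq2]
  have hqpos : 0 < q := hq.pos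
  have hqR : (0 : ℝ) < q := by exact_mod_cast hqpos
  refine ⟨?_, fun l _ hl => ?_⟩
  · by_cases h3 : q % 4 = 3
    · rw [if_pos h3]
      refine ⟨√q, √2, √q, Or.inl (by positivity), ?_⟩
      have e1 : √(q : ℝ) ^ 2 = q := Real.sq_sqrt hqR.le
      have e2 : √(2 : ℝ) ^ 2 = 2 := Real.sq_sqrt (by norm_num)
      have e3 : √(q : ℝ) ^ 4 = q ^ 2 := by
        calc √(q : ℝ) ^ 4 = (√(q : ℝ) ^ 2) ^ 2 := by ring
          _ = _ := by rw [e1]
      have e4 : √(2 : ℝ) ^ 4 = 4 := by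
        calc √(2 : ℝ) ^ 4 = (√(2 : ℝ) ^ 2) ^ 2 := by ring
          _ = _ := by rw [e2]; norm_num
      rw [e1, e2, e3, e4]
      push_cast
      field_simp
      ring
    · rw [if_neg h3]
      refine qs_sq ⟨√q, ?_⟩
      rw [Real.mul_self_sqrt hqR.le]
      push_cast
      ring
  · have hl2 : l = 2 ∨ l = 5 := by
      have hlp : l.Prime := Fact.out
      have : l ∣ 2 * 5 := hl
      rcases (Nat.Prime.dvd_mul hlp).1 this with h1 | h1
      · left; exact (Nat.prime_dvd_prime_iff_eq hlp Nat.prime_two).1 h1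
      · right; exact (Nat.prime_dvd_prime_iff_eq hlp (by norm_num)).1 h1
    set D : ℤ := (q : ℤ) * (if q % 4 = 3 then -1 else 1) with hD
    have hD4 : D % 4 = 1 := by
      rw [hD]; split_ifs <;> omega
    have hD5 : D % 5 = 1 ∨ D % 5 = 4 := by
      rw [hD]; split_ifs <;> omega
    rcases hl2 with rfl | rfl
    · by_cases h8 : D % 8 = 1
      · exact qs_sq (padic_sq2 h8)
      · have h9 : D ≠ 0 := by omega
        refine qs_sqb (by exact_mod_cast h9) ?_
        have h10 := padic_sq2 (n := 5 * D) (by omega)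
        push_cast at h10 ⊢
        exact h10
    · exact qs_sq (sq_five hD5)

theorem t_EX2 : S_EX2 := by
  refine ⟨⟨by norm_num, by norm_num, by norm_num, by norm_num⟩, ?_, ?_, ?_, ?_, ?_, ?_⟩
  · rintro ⟨x, hx⟩
    have h1 : x < 3 := by nlinarith
    have h2 : -3 < x := by nlinarith
    interval_cases x <;> omega
  · rintro ⟨x, hx⟩
    norm_num at hx
    have h1 : x < 3 := by nlinarith
    have h2 : -3 < x := by nlinarith
    interval_cases x <;> omega
  · unfold sel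
    rw [sel_one, Set.ncard_pair (by norm_num)]
  · norm_num
    unfold sel
    rw [sel_two, Set.ncard_pair (by norm_num)]
  · intro g _
    by_cases h : g = -1
    · simp only [h, if_true]
      exact one_mem _ (Or.inr rfl)
    · simp only [h, if_false]
      exact one_mem _ (Or.inl rfl)
  · intro q hq
    norm_num at hq
    exact hLS q hq

end Pool.Agent.U810.GZ.EX2
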